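import Pool.Agent.Lib.MP_0fa4a2_gt.BB.Card

/-!
There is a model of ZFC with a strong limit cardinal `μ` of uncountable cofinality in which every
perfectly normal non-archimedean space with a point-countable base is metrizable, provided that
each of its nonempty open sets contains a nonempty open set with fewer than `μ` points.
-/

namespace Pool.Agent.Results.MP_0fa4a2_gt.BelowBeth

open Pool.Agent.Lib.MP_2739cb_lc Pool.Agent.Lib.MP_783f50_lc Pool.Agent.Lib.MP_0fa4a2_gt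

theorem result :
    ∃ (M : Type 2) (E : M → M → Prop), IsZFC E ∧ ∃ w μ, IsOmega E w ∧
      IsCard E μ ∧ IsStrongLimit E μ ∧
      (∀ Z, Sub E Z μ → CardLe E Z w → ∃ β, E β μ ∧ Sub E Z β) ∧
      ∀ X τ, IsTop E X τ →
        (∀ U, E U τ → (∃ x, E x U) →
          ∃ V, E V τ ∧ (∃ x, E x V) ∧ Sub E V U ∧ ∃ ν, E ν μ ∧ CardLe E V ν) →
        IsPerfectlyNormal E w X τ →
        (∃ B, IsTopBase E τ B ∧ IsRankOne E X B) →
        (∃ B, IsTopBase E τ B ∧ IsPointCountable E w X B) →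
        ∃ ρ, IsUltrametricFor E w X τ ρ := by
  have hk := Cardinal.IsInaccessible.univ.{0, 1}
  obtain ⟨Q, _, _, h3⟩ := exists_first_forcing hk
  have : Fact (First _ Q) := ⟨h3⟩
  obtain ⟨K, ⟨Λ⟩⟩ := BB.exists_lv hk.isRegular
  exact ⟨Pool.Agent.Lib.MP_2739cb_lc.Mod (BB.Tri Λ Q), _, ZM.zfc, _, BB.mu Q Λ, ZM.hw, BB.final⟩

end Pool.Agent.Results.MP_0fa4a2_gt.BelowBeth
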