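import Pool.Agent.Lib.MP_0fa4a2_gt.Final

/-!
Relative to a supercompact cardinal, it is consistent with ZFC that every perfectly normal
non-archimedean space with a point-countable base is metrizable.
-/

namespace Pool.Agent.Results.MP_0fa4a2_gt.Consistent

open Pool.Agent.Lib.MP_2739cb_lc Pool.Agent.Lib.MP_783f50_lc Pool.Agent.Lib.MP_0fa4a2_gt

universe u

theorem result (κ : Cardinal.{u}) (hκ : IsSupercompact κ) :
    ∃ (M : Type (u + 1)) (E : M → M → Prop), IsZFC E ∧ ∃ w, IsOmega E w ∧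
      ∀ X τ, IsTop E X τ → IsPerfectlyNormal E w X τ →
        (∃ B, IsTopBase E τ B ∧ IsRankOne E X B) →
        (∃ B, IsTopBase E τ B ∧ IsPointCountable E w X B) →
        ∃ ρ, IsUltrametricFor E w X τ ρ := by
  obtain ⟨k, h1, h2⟩ := exists_inaccessible hκ
  obtain ⟨Q, _, _, h3⟩ := exists_first_forcing h1
  have : Fact (First k Q) := ⟨h3⟩
  exact ⟨Pool.Agent.Lib.MP_2739cb_lc.Mod (Two k Q κ.ord.ToType), _, ZM.zfc, _, ZM.hw,
    fun _ _ => main_internal (ax fun I _ => exists_ms hκ h2 I)⟩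

end Pool.Agent.Results.MP_0fa4a2_gt.Consistent
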