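import Pool.Agent.Lib.MP_0fa4a2_gt.BB.Size
import Pool.Agent.Lib.MP_0fa4a2_gt.LcMahlo
import Pool.Agent.Lib.MP_0fa4a2_gt.LcBeth
import Pool.Agent.Lib.MP_0fa4a2_gt.LcRefl

/-!
If every perfectly normal non-archimedean space with a point-countable base and at most `ℶ_ω₁`
points is metrizable, then there is an inner model of ZFC with a Mahlo cardinal.
-/

namespace Pool.Agent.Results.MP_0fa4a2_gt.Mahlo

open Cardinal Ordinal TopologicalSpace Pool.Agent.Lib.MP_2739cb_lc Pool.Agent.Lib.MP_0fa4a2_gt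

universe u

theorem result
    (h : ∀ (X : Type u) [TopologicalSpace X], #X ≤ ℶ_ (ω₁ : Ordinal.{u}) → T1Space X →
      PerfectlyNormalSpace X →
      (∃ B : Set (Set X), IsTopologicalBasis B ∧ ∀ p, IsChain (· ⊆ ·) {b ∈ B | p ∈ b}) →
      (∃ B : Set (Set X), IsTopologicalBasis B ∧ ∀ p, {b ∈ B | p ∈ b}.Countable) →
      MetrizableSpace X) :
    ∃ W : Set ZFSet.{u}, (∀ x ∈ W, ∀ y ∈ x, y ∈ W) ∧ (∀ o : Ordinal.{u}, o.toZFSet ∈ W) ∧
      IsZFC (fun a b : W => a.1 ∈ b.1) ∧ ∃ κ : W, Lc.IsMahlo (fun a b : W => a.1 ∈ b.1) κ := by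
  have key : ∃ κ : Ordinal.{u}, Lc.MahloM κ := by
    by_contra hno
    obtain ⟨D⟩ := Nec.exists_dat (M := (ℶ_ (ω₁ : Ordinal.{u})).out) (by simpa using Lc.beth_pow)
      (by simpa using Lc.le_beth) (Lc.diamondStar_beth hno) (fun κ a b _ => by
        have hy : Nec.Rg κ.ord := ⟨by rw [a.cof_ord], by
          rw [← Cardinal.ord_aleph]; exact Cardinal.ord_le_ord.2 b.le⟩
        simpa using Lc.not_reflects hy fun hm => hno ⟨_, hm⟩)
    obtain ⟨_, hT, hP, ⟨B, hB, hr, hp⟩, hM⟩ := D.space'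
    exact hM (h D.X (D.card_X (mk_out _) Lc.beth_pow (aleph0_le_beth _)) hT hP ⟨B, hB, hr⟩
      ⟨B, hB, hp⟩)
  obtain ⟨κ, hκ⟩ := key
  exact ⟨Lc.WW, fun _ hx _ hy => Lc.WW_trans hx hy, Lc.ord_mem_WW, Lc.W_zfc, Lc.ow κ, hκ.isMahlo⟩

end Pool.Agent.Results.MP_0fa4a2_gt.Mahlo
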