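import Pool.Agent.Lib.MP_0fa4a2_gt.BB.Size

/-!
If every perfectly normal non-archimedean space with a point-countable base and at most `μ` points
is metrizable, where `μ` is large enough and `μ ^ ℵ₀ = μ`, then either the two-cardinal diamond
star principle fails at `μ` or stationary reflection holds at a regular cardinal in the interval
`(ℵ₁, μ]`.
-/

namespace Pool.Agent.Results.MP_0fa4a2_gt.Necessity

open Cardinal TopologicalSpace Pool.Agent.Lib.MP_0fa4a2_gt.Nec

universe u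

theorem result (μ : Cardinal.{u}) (h1 : μ ^ ℵ₀ = μ)
    (h2 : 2 ^ (2 : Cardinal.{u}) ^ (ℵ₁ : Cardinal.{u}) ≤ μ)
    (h : ∀ (X : Type u) [TopologicalSpace X], #X ≤ μ → T1Space X → PerfectlyNormalSpace X →
      (∃ B : Set (Set X), IsTopologicalBasis B ∧ ∀ p, IsChain (· ⊆ ·) {b ∈ B | p ∈ b}) →
      (∃ B : Set (Set X), IsTopologicalBasis B ∧ ∀ p, {b ∈ B | p ∈ b}.Countable) →
      MetrizableSpace X) :
    ¬ DiamondStar μ.out ∨ ∃ κ : Cardinal.{u}, κ.IsRegular ∧ ℵ₁ < κ ∧ κ ≤ μ ∧ Reflects κ := by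
  by_contra hc
  push Not at hc
  obtain ⟨D⟩ := exists_dat (M := μ.out) (by simpa using h1) (by simpa using h2) hc.1
    (fun κ a b c => hc.2 κ a b (by simpa using c))
  obtain ⟨_, hT, hP, ⟨B, hB, hr, hp⟩, hM⟩ := D.space'
  exact hM (h D.X (D.card_X (mk_out _) h1 (aleph0_lt_aleph_one.le.trans
    (((cantor _).trans (cantor _)).le.trans h2))) hT hP ⟨B, hB, hr⟩ ⟨B, hB, hp⟩)

end Pool.Agent.Results.MP_0fa4a2_gt.Necessity
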